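import Pool.Agent.Q103.EC.Stm3
import Pool.Agent.Y221.PD.Main

/-!
# Project EC, job C5 (helper53): punctured discs
-/

set_option autoImplicit false
set_option maxHeartbeats 400000
set_option linter.overlappingInstances false
set_option linter.unusedSectionVars false

namespace Pool.Agent.Q53.EC

open Polynomial FF Filter IntermediateField
open Pool.Agent.W602.GT Pool.Agent.W603.BP Metric Topology
open Pool.Agent.Q41.SU
open Pool.Agent.Q41.GT
open Pool.Agent.TH466.QG
open Pool.Agent.Y221.AP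
open Pool.Agent.Y221.PD
open Pool.Agent.Q103.EC

/-- elements which are algebraic over a field generated by functions meromorphic at infinity -/
theorem minf_of_alg_adjoin {C : Set MK} (hC : ∀ c ∈ C, MInf c) {u : MK}
    (hu : IsAlgebraic (IntermediateField.adjoin ℂ C) u) : MInf u := by
  have hle : IntermediateField.adjoin ℂ C ≤ MI := by
    rw [IntermediateField.adjoin_le_iff]
    intro c hc
    exact hC c hc
  have h1 : IsAlgebraic MI u := by
    obtain ⟨p, hp, hpx⟩ := hu
    let φ : IntermediateField.adjoin ℂ C →+* MI := (IntermediateField.inclusion hle).toRingHom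
    refine ⟨p.map φ, ?_, ?_⟩
    · rw [Ne, Polynomial.map_eq_zero]
      exact hp
    · rw [← hpx, Polynomial.aeval_def, Polynomial.eval₂_map, Polynomial.aeval_def]
      rfl
  exact minf_of_alg h1

theorem t_pic : S_var → S_mer → S_pic := by
  classical
  intro hvar hmerS d hd2
  obtain ⟨B, hB⟩ := hmerS d hd2
  refine ⟨B, ?_⟩
  intro K _ _ M x hx hgen p q hp hq hco P hP hcard halg
  obtain ⟨R, N, e, g, hR, hxR, -, -, -, hmain⟩ :=
    hvar ℂ K M x hx hgen d p q (by omega) hp hq hco P hP halg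
  refine ⟨R, hR, hxR, ?_⟩
  intro f hf t0 ht0
  by_contra hft
  have hfan : ∀ i, AnalyticOnNhd ℂ (fun w => f w i) (PB 1) := by
    intro i w hw
    exact (hf.hol i).analyticAt (disc_open.mem_nhds (mem_disc.mpr hw))
  have hinvPB : ∀ {z : ℂ}, z ∈ Om → z⁻¹ ∈ PB 1 := by
    intro z hz
    exact inv_mem_PB one_pos (by rwa [inv_one])
  have hPBinv : ∀ {w : ℂ}, w ∈ PB 1 → w⁻¹ ∈ Om := by
    intro w hw
    have := inv_mem_Ext hw
    rwa [inv_one] at this
  have hOm0 : ∀ {z : ℂ}, z ∈ Om → z ≠ 0 := by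
    intro z hz h0
    have h1 : (1 : ℝ) < ‖z‖ := hz
    rw [h0, norm_zero] at h1
    linarith
  obtain ⟨f', hf'⟩ : ∃ f' : Fin (M + 1) → ℂ → ℂ, ∀ i z, f' i z = f z⁻¹ i := ⟨_, fun _ _ => rfl⟩
  have hf'an : ∀ i, ∀ z ∈ Om, AnalyticAt ℂ (f' i) z := by
    intro i z hz
    have h1 : f' i = (fun w => f w i) ∘ fun z => z⁻¹ := by
      funext v
      exact hf' i v
    rw [h1]
    exact AnalyticAt.comp (hfan i _ (hinvPB hz)) (analyticAt_inv (hOm0 hz))
  have hmer : ∀ i, MeromorphicOn (f' i) Om := fun i z hz => (hf'an i z hz).meromorphicAt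
  obtain ⟨z, hzdef⟩ : ∃ z : Fin (M + 1) → MK, z = fun i => cl (f' i) (hmer i) := ⟨_, rfl⟩
  have hcont : ∀ G : MvPolynomial (Fin (M + 1)) ℂ, ∀ t ∈ Om,
      ContinuousAt (fun t => MvPolynomial.eval (fun i => f' i t) G) t := fun G t ht =>
    (MvPolynomial.continuous_eval G).continuousAt.comp
      (continuousAt_pi.2 fun i => (hf'an i t ht).continuousAt)
  have hvz : ∀ G, val z G = 0 ↔ ∀ t ∈ Om, MvPolynomial.eval (fun i => f' i t) G = 0 := by
    intro G
    rw [hzdef, val_cl hmer G, cl_eq_zero]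
    constructor
    · intro h t ht
      exact eq_of_cod (g := fun _ => 0) h ht (hcont G t ht) continuousAt_const
    · intro h
      filter_upwards [cod_Om] with t ht
      exact h t ht
  have hevf : ∀ (G : MvPolynomial (Fin (M + 1)) ℂ) (t : ℂ),
      MvPolynomial.eval (fun i => f' i t) G = MvPolynomial.eval (f t⁻¹) G := by
    intro G t
    have h1 : (fun i => f' i t) = f t⁻¹ := by
      funext i
      rw [hf']
    rw [h1]
  have hzR : val z R ≠ 0 := by
    intro h0
    apply hft
    have h1 := (hvz _).1 h0 t0⁻¹ (hPBinv (mem_disc.1 ht0))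
    rw [hevf, inv_inv] at h1
    exact h1
  have hspec : ∀ G : MvPolynomial (Fin (M + 1)) ℂ, IsForm G → val x G = 0 → val z G = 0 := by
    intro G hGf hG
    rw [hvz]
    intro t ht
    rw [hevf]
    exact hf.mem _ hGf hG _ (mem_disc.2 (hinvPB ht))
  obtain ⟨p', q', P', hp', hq', hco', hP', hcard', -, -, hal⟩ := hmain MK z hspec hzR
  have hminf : ∀ c ∈ crs P', MInf c := hB p' q' hp' hq' hco' P' hP' (by rw [hcard']; exact hcard)
  apply hf.ess
  refine extends_of f hfan (fun w hw => hf.ne w (mem_disc.2 hw)) fun j k hj hk => ?_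
  have hzk : z k ≠ 0 := by
    intro h0
    apply hk
    rw [hzdef] at h0
    have h1 := cl_eq_zero.1 h0
    filter_upwards [PB_mem one_pos] with w hw
    have h2 := eq_of_cod (g := fun _ => 0) h1 (hPBinv hw) (hf'an k _ (hPBinv hw)).continuousAt
      continuousAt_const
    rw [hf', inv_inv] at h2
    exact h2
  have hjk : MInf (z j / z k) := minf_of_alg_adjoin hminf (hal j k hzk)
  refine ⟨fun w => Fn (z j / z k) w⁻¹, hjk, ?_⟩
  have h1 : cl (f' j) (hmer j) = cl (fun t => Fn (z j / z k) t * f' k t)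
      ((Fn_mero _).mul (hmer k)) := by
    have h2 : cl (f' j) (hmer j) = z j := by rw [hzdef]
    have h3 : cl (f' k) (hmer k) = z k := by rw [hzdef]
    have h4 : cl (fun t => Fn (z j / z k) t * f' k t) ((Fn_mero _).mul (hmer k)) =
        cl (Fn (z j / z k)) (Fn_mero _) * cl (f' k) (hmer k) := rfl
    rw [h4, h2, h3, cl_Fn, div_mul_cancel₀ _ hzk]
  rw [cl_eq] at h1
  filter_upwards [hjk.reg, PB_mem one_pos] with w hw1 hw2
  have hwO := hPBinv hw2
  have h2 := eq_of_cod (f := f' j) (g := fun t => Fn (z j / z k) t * f' k t) h1 hwO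
    (hf'an j _ hwO).continuousAt (hw1.continuousAt.mul (hf'an k _ hwO).continuousAt)
  rw [hf', hf', inv_inv] at h2
  exact h2

end Pool.Agent.Q53.EC
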