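import Pool.Agent.Q103.EC.Stm3

/-!
# Project EC, job C6 (helper53): subvarieties
-/

set_option autoImplicit false

namespace Pool.Agent.Q53.EC

open Finset Polynomial FF
open Pool.Agent.W602.GT
open Pool.Agent.Q41.SU
open Pool.Agent.Q41.GT
open Pool.Agent.TH466.QG
open Pool.Agent.Q103.EC

theorem t_str : S_var → Pool.Agent.Q41.GT.S_gt → S_str := by
  intro hvar hgt d hd2
  obtain ⟨B, hB⟩ := hgt d hd2
  refine ⟨B, ?_⟩
  intro k K _ _ _ _ M x hx hgen p q hp hq hco P hP hcard halg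
  obtain ⟨R, N, e, g, hR, hxR, -, -, -, hmain⟩ :=
    hvar k K M x hx hgen d p q (by omega) hp hq hco P hP halg
  refine ⟨R, hR, hxR, ?_⟩
  intro E _ _ w z hz hzR hw htr
  obtain ⟨p', q', P', hp', hq', hco', hP', hcard', -, -, hal⟩ := hmain E z hz.spec hzR
  refine hB k E w hw htr p' q' hp' hq' hco' P' hP' (by rw [hcard']; exact hcard) ?_
  obtain ⟨j, hj'⟩ := Function.ne_iff.1 hz.ne
  have hj : z j ≠ 0 := hj'
  have hgen' := adjoin_norm hz.gen hj
  exact alg_over (E := E) (K := E) hgen' _ (fun m => hal m j hj)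

end Pool.Agent.Q53.EC
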