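import Pool.Agent.Q103.EC.Stm3

/-!
# Project EC, job C4 (helper53): varieties carrying a map with a stable set
-/

set_option autoImplicit false

namespace Pool.Agent.Q53.EC

open Finset Polynomial FF
open Pool.Agent.W602.GT
open Pool.Agent.Q41.SU
open Pool.Agent.Q41.GT
open Pool.Agent.TH466.QG
open Pool.Agent.Q103.EC

theorem crs_finite {K : Type} [Field K] (P : Finset K) : (crs P).Finite := by
  classical
  refine Set.Finite.subset (Finset.finite_toSet ((P ×ˢ P ×ˢ P ×ˢ P).image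
    (fun t => ((t.2.2.2 - t.1) * (t.2.1 - t.2.2.1)) / ((t.2.2.2 - t.2.2.1) * (t.2.1 - t.1))))) ?_
  rintro c ⟨x0, h0, x1, h1, x2, h2, x, h, -, -, -, -, -, rfl⟩
  rw [Finset.mem_coe, Finset.mem_image]
  exact ⟨(x0, x1, x2, x), by
    simp only [Finset.mem_product]
    exact ⟨h0, h1, h2, h⟩, rfl⟩

theorem exists_list {K : Type} {C : Set K} (hC : C.Finite) :
    ∃ (N : ℕ) (c : Fin N → K), Set.range c = C := by
  classical
  refine ⟨hC.toFinset.card, fun i => (hC.toFinset.equivFin.symm i : K), ?_⟩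
  ext a
  constructor
  · rintro ⟨i, rfl⟩
    exact hC.mem_toFinset.1 (hC.toFinset.equivFin.symm i).2
  · intro ha
    exact ⟨hC.toFinset.equivFin ⟨a, hC.mem_toFinset.2 ha⟩, by simp⟩

theorem alg_mono {k K : Type} [Field k] [Field K] [Algebra k K] {L₁ L₂ : IntermediateField k K}
    (h : L₁ ≤ L₂) {a : K} (ha : IsAlgebraic L₁ a) : IsAlgebraic L₂ a := by
  obtain ⟨p, hp, hpa⟩ := ha
  refine ⟨p.map (IntermediateField.inclusion h).toRingHom, ?_, ?_⟩
  · rw [Ne, Polynomial.map_eq_zero]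
    exact hp
  · rw [Polynomial.aeval_def, Polynomial.eval₂_map]
    exact hpa

theorem hz_hom {k : Type} [Field k] {M : ℕ} (i0 : Fin (M + 1)) (G : MvPolynomial (Fin (M + 1)) k) :
    (hz i0 G).IsHomogeneous G.totalDegree := by
  unfold hz
  refine MvPolynomial.IsHomogeneous.sum _ _ _ fun d hd => ?_
  have h1 := (MvPolynomial.homogeneousComponent_isHomogeneous d G).mul
    ((MvPolynomial.isHomogeneous_X k i0).pow (G.totalDegree - d))
  have h2 : d + 1 * (G.totalDegree - d) = G.totalDegree := by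
    have := Finset.mem_range.1 hd
    omega
  rwa [h2] at h1

/-- homogenization of degree `e` -/
noncomputable def hze {k : Type} [Field k] {M : ℕ} (i0 : Fin (M + 1)) (e : ℕ)
    (G : MvPolynomial (Fin (M + 1)) k) : MvPolynomial (Fin (M + 1)) k :=
  hz i0 G * MvPolynomial.X i0 ^ (e - G.totalDegree)

theorem hze_hom {k : Type} [Field k] {M : ℕ} (i0 : Fin (M + 1)) (e : ℕ)
    (G : MvPolynomial (Fin (M + 1)) k) (h : G.totalDegree ≤ e) :
    (hze i0 e G).IsHomogeneous e := by
  have h1 := (hz_hom i0 G).mul ((MvPolynomial.isHomogeneous_X k i0).pow (e - G.totalDegree))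
  have h2 : G.totalDegree + 1 * (e - G.totalDegree) = e := by omega
  rwa [h2] at h1

theorem val_hze {k : Type} [Field k] {M : ℕ} {E : Type} [Field E] [Algebra k E]
    {i0 : Fin (M + 1)} (e : ℕ) (G : MvPolynomial (Fin (M + 1)) k) (h : G.totalDegree ≤ e)
    {u : Fin (M + 1) → E} (hu : u i0 ≠ 0) :
    val u (hze i0 e G) = u i0 ^ e * MvPolynomial.aeval (fun i => u i / u i0) G := by
  unfold hze
  change MvPolynomial.aeval u _ = _
  rw [map_mul, map_pow, MvPolynomial.aeval_X]
  change val u (hz i0 G) * _ = _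
  rw [val_hz G hu]
  have h2 : u i0 ^ e = u i0 ^ G.totalDegree * u i0 ^ (e - G.totalDegree) := by
    rw [← pow_add]
    congr 1
    omega
  rw [h2]
  ring

theorem t_var : S_spr → S_spm → S_spa → S_var := by
  classical
  intro hspr hspm hspa k K _ _ _ M x hx hgen d p q hd hp hq hco P hP halg
  obtain ⟨i1, hi1'⟩ := Function.ne_iff.1 hx
  have hi1 : x i1 ≠ 0 := hi1'
  have hu := adjoin_norm hgen hi1
  obtain ⟨N, c, hc⟩ := exists_list (crs_finite P)
  obtain ⟨Θ2, hΘ2, hs2⟩ := hspm k K d p q hd hp hq hco P hP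
  obtain ⟨Θ3, hΘ3, hs3⟩ := hspa k K N (M + 1) c (fun i => x i / x i1) (by
    intro i
    rw [hc]
    exact halg.isAlgebraic _)
  obtain ⟨H, hH, hs1⟩ := hspr k K (Fin (M + 1)) (fun i => x i / x i1) hu (Θ2 ∪ Θ3)
    (hΘ2.union hΘ3)
  obtain ⟨H0, hH0, hG⟩ := exists_den hu (crs_finite P)
  have hG' : ∀ i, ∃ G : MvPolynomial (Fin (M + 1)) k,
      c i * MvPolynomial.aeval (fun i => x i / x i1) H0 =
        MvPolynomial.aeval (fun i => x i / x i1) G := fun i => hG (c i) (by
    rw [← hc]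
    exact ⟨i, rfl⟩)
  choose G hGc using hG'
  set G' : Fin (N + 1) → MvPolynomial (Fin (M + 1)) k := Fin.cons H0 G with hG'def
  set e := ∑ i, (G' i).totalDegree with he
  have hle : ∀ i, (G' i).totalDegree ≤ e := fun i =>
    Finset.single_le_sum (f := fun i => (G' i).totalDegree) (fun _ _ => Nat.zero_le _)
      (Finset.mem_univ i)
  have hG0 : G' 0 = H0 := by rw [hG'def, Fin.cons_zero]
  have hGs : ∀ i : Fin N, G' i.succ = G i := fun i => by rw [hG'def, Fin.cons_succ]
  refine ⟨MvPolynomial.X i1 * hz i1 H * hze i1 e (G' 0), N, e, fun i => hze i1 e (G' i),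
    ?_, ?_, fun i => hze_hom i1 e _ (hle i), ?_, ?_, ?_⟩
  · exact ⟨1 + H.totalDegree + e, ((MvPolynomial.isHomogeneous_X k i1).mul (hz_hom i1 H)).mul
      (hze_hom i1 e _ (hle 0))⟩
  · change MvPolynomial.aeval x _ ≠ 0
    rw [map_mul, map_mul, MvPolynomial.aeval_X]
    refine mul_ne_zero (mul_ne_zero hi1 ?_) ?_
    · change val x _ ≠ 0
      rw [val_hz H hi1]
      exact mul_ne_zero (pow_ne_zero _ hi1) hH
    · change val x _ ≠ 0
      rw [val_hze e _ (hle 0) hi1, hG0]
      exact mul_ne_zero (pow_ne_zero _ hi1) hH0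
  · rw [val_hze e _ (hle 0) hi1, hG0]
    exact mul_ne_zero (pow_ne_zero _ hi1) hH0
  · intro a ha
    rw [← hc] at ha
    obtain ⟨i, rfl⟩ := ha
    refine ⟨i.succ, ?_⟩
    rw [val_hze e _ (hle _) hi1, val_hze e _ (hle 0) hi1, hG0, hGs, ← hGc i,
      mul_div_mul_left _ _ (pow_ne_zero _ hi1), mul_div_assoc, div_self hH0, mul_one]
  intro E _ _ z hrel hzR
  change MvPolynomial.aeval z _ ≠ 0 at hzR
  rw [map_mul, map_mul, MvPolynomial.aeval_X] at hzR
  have hz1 : z i1 ≠ 0 := left_ne_zero_of_mul (left_ne_zero_of_mul hzR)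
  have hzH : MvPolynomial.aeval (fun i => z i / z i1) H ≠ 0 := by
    have h1 : val z (hz i1 H) ≠ 0 := right_ne_zero_of_mul (left_ne_zero_of_mul hzR)
    rw [val_hz H hz1] at h1
    exact right_ne_zero_of_mul h1
  have hzg : val z (hze i1 e (G' 0)) ≠ 0 := right_ne_zero_of_mul hzR
  have hzH0 : MvPolynomial.aeval (fun i => z i / z i1) H0 ≠ 0 := by
    have h1 := hzg
    rw [val_hze e _ (hle 0) hz1, hG0] at h1
    exact right_ne_zero_of_mul h1
  have hsp : ∀ G : MvPolynomial (Fin (M + 1)) k,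
      MvPolynomial.aeval (fun i => x i / x i1) G = 0 →
      MvPolynomial.aeval (fun i => z i / z i1) G = 0 := by
    intro G hG
    have h1 : val x (hz i1 G) = 0 := by
      rw [val_hz G hi1, hG, mul_zero]
    have h2 := hrel _ (hz_form i1 G) h1
    rw [val_hz G hz1] at h2
    exact (mul_eq_zero.1 h2).resolve_left (pow_ne_zero _ hz1)
  obtain ⟨S, hSx, hSΘ⟩ := hs1 E (fun i => z i / z i1) hsp hzH
  obtain ⟨p', q', P', hp', hq', hco', hP', hcard, hto, hfrom⟩ := hs2 E S
    (fun ϑ hϑ => hSΘ ϑ (Or.inl hϑ))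
  have hval : ∀ G : MvPolynomial (Fin (M + 1)) k,
      S.T (MvPolynomial.aeval (fun i => x i / x i1) G)
        (MvPolynomial.aeval (fun i => z i / z i1) G) := fun G => S.val hSx G
  have hcP : ∀ i, c i ∈ crs P := fun i => by
    rw [← hc]
    exact ⟨i, rfl⟩
  choose c' hc'P hc' using fun i => hto (c i) (hcP i)
  have hc'val : ∀ i, c' i * MvPolynomial.aeval (fun i => z i / z i1) H0 =
      MvPolynomial.aeval (fun i => z i / z i1) (G i) := by
    intro i
    have h1 := S.mul (hc' i) (hval H0)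
    rw [hGc i] at h1
    exact S.ext h1 (hval (G i))
  refine ⟨p', q', P', hp', hq', hco', hP', hcard, hzg, ?_, ?_⟩
  · intro i
    refine Fin.cases ?_ (fun i => ?_) i
    · left
      exact div_self hzg
    · right
      rw [val_hze e _ (hle _) hz1, val_hze e _ (hle 0) hz1, hG0, hGs, ← hc'val i,
        mul_div_mul_left _ _ (pow_ne_zero _ hz1), mul_div_assoc, div_self hzH0, mul_one]
      exact hc'P i
  · have halg' := hs3 E S (fun ϑ hϑ => hSΘ ϑ (Or.inr hϑ)) c' (fun i => z i / z i1) hc' hSx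
    have hmono : IntermediateField.adjoin k (Set.range c') ≤ IntermediateField.adjoin k (crs P') := by
      refine IntermediateField.adjoin.mono _ _ _ ?_
      rintro _ ⟨i, rfl⟩
      exact hc'P i
    intro i j hj
    have h1 := alg_mono hmono (halg' i)
    have h2 := alg_mono hmono (halg' j)
    have h3 : z i / z j = (z i / z i1) * (z j / z i1)⁻¹ := by field_simp
    rw [h3]
    exact h1.mul h2.inv

end Pool.Agent.Q53.EC
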